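import Pool.Agent.W562.GP.Main

set_option autoImplicit false

/-!
# A stable regular partition of the Gaussian plane with curved interfaces

The 4-partition consists of the three 120 degree sectors with the vertex replaced by a small
curved triangular cell. Every arc has weighted curvature 100, so all interfaces between the
triangular cell and the outer cells are curved.
-/

namespace Pool.Agent.Results.MP_845d3b_gt.StableNonflat

open Pool.Agent.W562.GaussPart

/-- There is a regular stationary stable 4-partition of the Gaussian plane without product
structure and with an interface that is not contained in a line. -/
theorem result : ∃ Ω : Fin 4 → Set ℂ, IsPartition Ω ∧ IsRegular Ω ∧ FiniteArea Ω ∧ Stationary Ω ∧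
    Stable Ω ∧ IndexNonneg Ω ∧ ¬ HasProductStructure Ω ∧ ¬ FlatInterfaces Ω :=
  Pool.Agent.W562.GP.main

end Pool.Agent.Results.MP_845d3b_gt.StableNonflat
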